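import Pool.Agent.N178.HW.StmC

/-!
# Rational Hodge tensors give Hodge classes on products
-/

set_option linter.unusedSectionVars false
set_option autoImplicit false

namespace Pool.Agent.N306.GH

open Finset Matrix Module Pool.Agent.W437.HC Pool.Agent.W437.HD Pool.Agent.TH504.CB
  Pool.Agent.Y90 Pool.Agent.R915
open Pool.Agent.H204R3.CM (IsHodge)
open Pool.Agent.H204R3.SP (Kills)
open Pool.Agent.N178.HW

noncomputable section

section pull

variable {g : ℕ} {κ Q : Type} [Fintype κ] [DecidableEq κ] [Fintype Q] [DecidableEq Q]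

/-- The pull-back of a form under the projections to the factors `p m`. -/
def FQ {K : Type} [Field K] (p : κ → Q) (c : (κ → Fin g ⊕ Fin g) → K) :
    MultilinearMap K (fun _ : κ => BQ (fun _ : Q => g) → K) K :=
  (evalM c).compLinearMap fun m =>
    LinearMap.funLeft K K fun i : Fin g ⊕ Fin g => (⟨p m, i⟩ : BQ (fun _ : Q => g))

theorem FQ_apply {K : Type} [Field K] (p : κ → Q) (c : (κ → Fin g ⊕ Fin g) → K)
    (v : κ → BQ (fun _ : Q => g) → K) :
    FQ p c v = evalF c (fun m => cQ (a := fun _ : Q => g) (p m) (v m)) := rfl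

theorem cst_CF (p : κ → Q) (c : (κ → Fin g ⊕ Fin g) → ℚ) :
    cst ℂ (CF (FQ p c)) = CF (FQ p (cst ℂ c)) := by
  funext I
  change ((FQ p c (fun k => Pi.single (I k) 1) : ℚ) : ℂ) =
    FQ p (cst ℂ c) (fun k => Pi.single (I k) 1)
  rw [FQ_apply, FQ_apply, evalF_castK]
  congr 1
  funext m i
  exact congrFun (single_cv (I m)) ⟨p m, i⟩

theorem DJ_Q {Z : Matrix (Fin g) (Fin g) ℂ} (h : PM Z) :
    DJ (JQ (fun _ : Q => Z)) = blockDiagonal' fun _ : Q => DZ Z := by
  have h1 := DJ_JQ (fun _ : Q => h) (RingEquiv.refl ℂ)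
  exact h1

theorem isH_FQ {Z : Matrix (Fin g) (Fin g) ℂ} (h : PM Z) (p : κ → Q)
    (c : (κ → Fin g ⊕ Fin g) → ℚ) (hc : act (DZ Z) (cst ℂ c) = 0) :
    IsH (DJ (JQ (fun _ : Q => Z))) (CF (FQ p c)) := by
  unfold IsH
  rw [cst_CF]
  refine act_of_kills fun v => ?_
  have h1 := evalF_act (DZ Z) (cst ℂ c) (fun m => cQ (a := fun _ : Q => g) (p m) (v m))
  rw [hc, evalF_zero] at h1
  rw [h1]
  refine Finset.sum_congr rfl fun k _ => ?_
  rw [FQ_apply]
  congr 1
  funext m
  by_cases hm : m = k
  · subst hm
    rw [Function.update_self, Function.update_self, Pool.Agent.W548.Odd.ph_apply, DJ_Q h, bd_mulVec]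
  · rw [Function.update_of_ne hm, Function.update_of_ne hm]

theorem evalF_eq_zero {K : Type} [Field K] (c : (κ → Fin g ⊕ Fin g) → K)
    (x : κ → Fin g ⊕ Fin g → K) (k : κ) (hk : x k = 0) : evalF c x = 0 := by
  unfold evalF
  refine Finset.sum_eq_zero fun I _ => ?_
  rw [Finset.prod_eq_zero (Finset.mem_univ k), mul_zero]
  rw [hk]
  rfl

end pull

theorem t_MULT : S_MULT := by
  intro g Z h n i τ hτ
  let p : Fin n ⊕ Fin i → Option (Fin n) := Sum.elim (fun k => some k) fun _ => none
  refine ⟨MultilinearMap.alternatization (evalM (CF (FQ p τ))), ?_, fun y x => ?_⟩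
  · exact (chtQ (fun _ : Option (Fin n) => h)).hodge_alt (isH_FQ h p τ hτ)
  · set V : Fin n ⊕ Fin i → BQ (fun _ : Option (Fin n) => g) → ℚ :=
      Sum.elim (fun k => inF (fun _ => g) (some k) (y k)) fun l => inF (fun _ => g) none (x l)
      with hV
    have h1 : (MultilinearMap.alternatization (evalM (CF (FQ p τ)))) V =
        ∑ π : Equiv.Perm (Fin n ⊕ Fin i), ((Equiv.Perm.sign π : ℤ) : ℚ) *
          FQ p τ (fun m => V (π m)) := by
      rw [MultilinearMap.alternatization_apply]
      refine Finset.sum_congr rfl fun σ _ => ?_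
      rw [MultilinearMap.domDomCongr_apply, evalM_apply, Units.smul_def, zsmul_eq_mul,
        ← CF_eval]
    refine h1.trans ?_
    symm
    refine Fintype.sum_of_injective
      (fun σ : Equiv.Perm (Fin i) => Equiv.Perm.sumCongr (1 : Equiv.Perm (Fin n)) σ) ?_ _ _ ?_ ?_
    · intro σ σ' hs
      ext l
      have h2 := congrArg (fun π : Equiv.Perm (Fin n ⊕ Fin i) => π (Sum.inr l)) hs
      simp only [Equiv.Perm.sumCongr_apply, Sum.map_inr, Sum.inr.injEq] at h2
      rw [h2]
    · intro π hπ
      have h3 : ∃ k, π (Sum.inl k) ≠ Sum.inl k := by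
        by_contra hcon
        push Not at hcon
        apply hπ
        have h4 : Set.MapsTo π (Set.range (Sum.inl : Fin n → Fin n ⊕ Fin i))
            (Set.range (Sum.inl : Fin n → Fin n ⊕ Fin i)) := by
          rintro _ ⟨k, rfl⟩
          exact ⟨k, (hcon k).symm⟩
        obtain ⟨⟨σ1, σ2⟩, h5⟩ := Equiv.Perm.mem_sumCongrHom_range_of_perm_mapsTo_inl h4
        rw [Equiv.Perm.sumCongrHom_apply] at h5
        have h6 : σ1 = 1 := by
          ext k
          have h7 := hcon k
          rw [← h5] at h7
          simp only [Equiv.Perm.sumCongr_apply, Sum.map_inl, Sum.inl.injEq] at h7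
          rw [h7]
          rfl
        subst h6
        exact ⟨σ2, h5⟩
      obtain ⟨k, hk⟩ := h3
      have h8 : FQ p τ (fun m => V (π m)) = 0 := by
        rw [FQ_apply]
        refine evalF_eq_zero _ _ (Sum.inl k) ?_
        change cQ (a := fun _ : Option (Fin n) => g) (some k) (V (π (Sum.inl k))) = 0
        rcases hm : π (Sum.inl k) with k' | l
        · rw [hm] at hk
          have h9 : (some k : Option (Fin n)) ≠ some k' := by
            intro h10
            exact hk (by rw [Option.some_injective _ h10])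
          exact inF_ne (a := fun _ : Option (Fin n) => g) h9 (y k')
        · exact inF_ne (a := fun _ : Option (Fin n) => g) (Option.some_ne_none k) (x l)
      rw [h8, mul_zero]
    · intro σ
      rw [Equiv.Perm.sign_sumCongr, map_one, one_mul]
      congr 1
      rw [FQ_apply]
      congr 1
      funext m
      rcases m with k | l
      · exact (inF_same (a := fun _ : Option (Fin n) => g) (some k) (y k)).symm
      · exact (inF_same (a := fun _ : Option (Fin n) => g) none (x (σ l))).symm

end

end Pool.Agent.N306.GH
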